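import Pool.Agent.NCub.Stmts

/-!
# Row POL: ten coefficients
-/

set_option autoImplicit false

namespace Pool.Agent.NCub.H10

open Pool.Agent.OM Pool.Agent.NCub

/-- the exponent `(i, j)` -/
noncomputable def ex (q : ℕ × ℕ) : Fin 2 →₀ ℕ := Finsupp.single 0 q.1 + Finsupp.single 1 q.2

theorem ex_zero (q : ℕ × ℕ) : ex q 0 = q.1 := by
  simp [ex]

theorem ex_one (q : ℕ × ℕ) : ex q 1 = q.2 := by
  simp [ex]

theorem ex_eta (m : Fin 2 →₀ ℕ) : ex (m 0, m 1) = m := by
  ext i
  fin_cases i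
  · exact ex_zero _
  · exact ex_one _

theorem coeff_zero {P : MvPolynomial (Fin 2) ℝ} (hd : P.totalDegree ≤ 3) {m : Fin 2 →₀ ℕ}
    (hm : 3 < m 0 + m 1) : MvPolynomial.coeff m P = 0 := by
  apply MvPolynomial.coeff_eq_zero_of_totalDegree_lt
  have h : ∑ i ∈ m.support, m i = m 0 + m 1 := by
    rw [← Fin.sum_univ_two (fun i => m i)]
    refine Finset.sum_subset (Finset.subset_univ _) fun i _ hi => ?_
    exact Finsupp.notMem_support_iff.1 hi
  rw [h]
  omega

theorem eval_sum {P : MvPolynomial (Fin 2) ℝ} (hd : P.totalDegree ≤ 3) (x y : ℝ) :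
    MvPolynomial.eval ![x, y] P = ∑ q ∈ Finset.range 4 ×ˢ Finset.range 4,
      MvPolynomial.coeff (ex q) P * (x ^ q.1 * y ^ q.2) := by
  classical
  have h1 : ∑ q ∈ Finset.range 4 ×ˢ Finset.range 4,
      MvPolynomial.coeff (ex q) P * (x ^ q.1 * y ^ q.2) =
      ∑ m ∈ (Finset.range 4 ×ˢ Finset.range 4).image ex,
        MvPolynomial.coeff m P * (x ^ m 0 * y ^ m 1) := by
    rw [Finset.sum_image]
    · refine Finset.sum_congr rfl fun q _ => ?_
      rw [ex_zero, ex_one]
    · intro q _ q' _ h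
      have h0 : ex q 0 = ex q' 0 := by rw [h]
      have h1 : ex q 1 = ex q' 1 := by rw [h]
      rw [ex_zero, ex_zero] at h0
      rw [ex_one, ex_one] at h1
      exact Prod.ext h0 h1
  rw [h1, MvPolynomial.eval_eq]
  have h2 : ∀ m : Fin 2 →₀ ℕ, ∏ i ∈ m.support, (![x, y] : Fin 2 → ℝ) i ^ m i =
      x ^ m 0 * y ^ m 1 := by
    intro m
    have : ∏ i ∈ m.support, (![x, y] : Fin 2 → ℝ) i ^ m i =
        ∏ i : Fin 2, (![x, y] : Fin 2 → ℝ) i ^ m i := by
      refine Finset.prod_subset (Finset.subset_univ _) fun i _ hi => ?_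
      rw [Finsupp.notMem_support_iff.1 hi, pow_zero]
    rw [this, Fin.prod_univ_two]
    rfl
  rw [Finset.sum_congr rfl fun m _ => by rw [h2 m]]
  refine Finset.sum_subset ?_ ?_
  · intro m hm
    rw [Finset.mem_image]
    refine ⟨(m 0, m 1), ?_, ex_eta m⟩
    have h3 : m 0 + m 1 ≤ 3 := by
      by_contra h
      exact MvPolynomial.mem_support_iff.1 hm (coeff_zero hd (by omega))
    rw [Finset.mem_product, Finset.mem_range, Finset.mem_range]
    show m 0 < 4 ∧ m 1 < 4
    omega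
  · intro m _ hm
    rw [MvPolynomial.notMem_support_iff.1 hm, zero_mul]

theorem pol : POLStmt := by
  intro P hP hd
  let a : ℕ → ℕ → ℝ := fun i j => MvPolynomial.coeff (ex (i, j)) P
  have ha : ∀ i j, 3 < i + j → a i j = 0 := by
    intro i j hij
    apply coeff_zero hd
    rw [ex_zero, ex_one]
    exact hij
  have hG : ∀ x : ℝ × ℝ, MvPolynomial.eval ![x.1, x.2] P =
      G ![a 3 0, a 2 1, a 2 0, a 1 2, a 1 1, a 1 0, a 0 3, a 0 2, a 0 1, a 0 0] (hat x) := by
    intro x
    rw [eval_sum hd, Finset.sum_product]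
    have e : ∀ i j, MvPolynomial.coeff (ex (i, j)) P = a i j := fun _ _ => rfl
    simp only [Finset.sum_range_succ, Finset.sum_range_zero, e]
    rw [ha 1 3 (by norm_num), ha 2 2 (by norm_num), ha 2 3 (by norm_num), ha 3 1 (by norm_num),
      ha 3 2 (by norm_num), ha 3 3 (by norm_num)]
    simp [G, T, hat, Matrix.cons_val]
    ring
  refine ⟨_, ?_, hG⟩
  intro h0
  apply hP
  apply MvPolynomial.funext
  intro v
  have h1 := hG (v 0, v 1)
  rw [h0] at h1
  have h2 : v = ![v 0, v 1] := by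
    ext i
    fin_cases i <;> rfl
  rw [h2, map_zero]
  rw [show MvPolynomial.eval ![v 0, v 1] P = _ from h1]
  simp [G, T]

end Pool.Agent.NCub.H10
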